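import Pool.Agent.Lib.BorsukUlam.Main

/-!
# `K_{3,3}` is not planar (topological version, from the Borsuk-Ulam theorem)

If `γ i j : [0,1] → P` (`i, j < 3`, `P` a real normed plane) are continuous paths from `u i` to
`w j`, then two of them, `γ i j` and `γ i' j'` with `i ≠ i'`, `j ≠ j'`, meet.
-/

namespace Pool.Agent.H52LP

open Set

/-- weight of the coordinate `i` of a vector of `ℝ³`: by how much it exceeds all others -/
noncomputable def wt (p : Fin 3 → ℝ) (i : Fin 3) : ℝ :=
  max 0 (p i - max (p (i + 1)) (p (i + 2)))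

lemma wt_nonneg (p : Fin 3 → ℝ) (i : Fin 3) : 0 ≤ wt p i := le_max_left _ _

lemma continuous_wt {X : Type*} [TopologicalSpace X] (f : X → Fin 3 → ℝ) (hf : Continuous f)
    (i : Fin 3) : Continuous fun x => wt (f x) i := by
  have h : ∀ j, Continuous fun x => f x j := fun j => (continuous_apply j).comp hf
  unfold wt
  exact continuous_const.max ((h i).sub ((h _).max (h _)))

lemma wt_eq_zero {p : Fin 3 → ℝ} {k j : Fin 3} (hkj : k ≠ j) (h : p k ≤ p j) : wt p k = 0 := by
  have : p j ≤ max (p (k + 1)) (p (k + 2)) := by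
    have hj : j = k + 1 ∨ j = k + 2 := by
      revert hkj
      clear h
      revert k j
      decide
    rcases hj with rfl | rfl
    · exact le_max_left _ _
    · exact le_max_right _ _
  unfold wt
  exact max_eq_left (by linarith)

/-- some index `i` carries all the weight of `p`, some other index all the weight of `-p` -/
lemma exists_index (p : Fin 3 → ℝ) : ∃ i i' : Fin 3, i ≠ i' ∧ (∀ k, k ≠ i → wt p k = 0) ∧
    (∀ k, k ≠ i' → wt (-p) k = 0) := by
  obtain ⟨i, hi⟩ := Finite.exists_max p
  obtain ⟨i', hi'⟩ := Finite.exists_min p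
  by_cases h : i = i'
  · subst h
    have hall : ∀ k, p k = p i := fun k => le_antisymm (hi k) (hi' k)
    have hne : ∀ i : Fin 3, i ≠ i + 1 := by decide
    exact ⟨i, i + 1, hne i, fun k hk => wt_eq_zero hk (hi k),
      fun k hk => wt_eq_zero hk (by simp [hall])⟩
  · exact ⟨i, i', h, fun k hk => wt_eq_zero hk (hi k),
      fun k hk => wt_eq_zero hk (by simpa using hi' k)⟩

lemma exists_pos (p : Fin 3 → ℝ) (h2 : p 2 = 0) (hp : p ≠ 0) :
    ∃ i, 0 < wt p i ∨ 0 < wt (-p) i := by
  by_contra hcon
  push Not at hcon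
  have key : ∀ i, p i ≤ max (p (i + 1)) (p (i + 2)) := by
    intro i
    have := (hcon i).1
    unfold wt at this
    have := (le_max_right _ _).trans this
    linarith
  have key' : ∀ i, -p i ≤ max (-p (i + 1)) (-p (i + 2)) := by
    intro i
    have := (hcon i).2
    unfold wt at this
    have := (le_max_right _ _).trans this
    simp only [Pi.neg_apply] at this
    linarith
  apply hp
  have e1 : (1 : Fin 3) + 1 = 2 := rfl
  have e2 : (1 : Fin 3) + 2 = 0 := rfl
  have e3 : (2 : Fin 3) + 1 = 0 := rfl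
  have e4 : (2 : Fin 3) + 2 = 1 := rfl
  have k0 := key 0
  have k1 := key 1
  have k2 := key 2
  have l0 := key' 0
  have l1 := key' 1
  have l2 := key' 2
  rw [e1, e2] at k1 l1
  rw [e3, e4] at k2 l2
  simp only [zero_add] at k0 l0
  rw [le_max_iff] at k0 k1 k2 l0 l1 l2
  have : p 0 = 0 ∧ p 1 = 0 := by
    constructor
    · rcases k0 with k0 | k0 <;> rcases k1 with k1 | k1 <;> rcases k2 with k2 | k2 <;>
      rcases l0 with l0 | l0 <;> rcases l1 with l1 | l1 <;> rcases l2 with l2 | l2 <;> linarith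
    · rcases k0 with k0 | k0 <;> rcases k1 with k1 | k1 <;> rcases k2 with k2 | k2 <;>
      rcases l0 with l0 | l0 <;> rcases l1 with l1 | l1 <;> rcases l2 with l2 | l2 <;> linarith
  ext k
  fin_cases k
  · simpa using this.1
  · simpa using this.2
  · simpa using h2

variable {P : Type*} [NormedAddCommGroup P] [NormedSpace ℝ P]

/-- correction term which turns `a • u + b • w` into `(a + b) • γ (b / (a + b))` -/
noncomputable def psi (γ : ℝ → P) (u w : P) (a b : ℝ) : P :=
  (a + b) • γ (b / (a + b)) - a • u - b • w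

lemma psi_zero_left {γ : ℝ → P} {u w : P} (h1 : γ 1 = w) {b : ℝ} : psi γ u w 0 b = 0 := by
  unfold psi
  by_cases hb : b = 0
  · simp [hb]
  · simp [div_self hb, h1]

lemma psi_zero_right {γ : ℝ → P} {u w : P} (h0 : γ 0 = u) {a : ℝ} : psi γ u w a 0 = 0 := by
  unfold psi
  simp [h0]

lemma continuous_psi {γ : ℝ → P} (hγ : Continuous γ) {M : ℝ} (hM : ∀ t, ‖γ t‖ ≤ M) (u w : P)
    {X : Type*} [TopologicalSpace X] {a b : X → ℝ} (ha : Continuous a) (hb : Continuous b)
    : Continuous fun x => psi γ u w (a x) (b x) := by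
  unfold psi
  refine ((?_ : Continuous fun x => (a x + b x) • γ (b x / (a x + b x))).sub
    (ha.smul continuous_const)).sub (hb.smul continuous_const)
  rw [continuous_iff_continuousAt]
  intro x₀
  have hs : Continuous fun x => a x + b x := ha.add hb
  by_cases h : a x₀ + b x₀ = 0
  · have h1 : Filter.Tendsto (fun x => |a x + b x| * M) (nhds x₀) (nhds 0) := by
      have h2 : Continuous fun x => |a x + b x| * M := hs.abs.mul continuous_const
      have := h2.tendsto x₀
      simpa [h] using this
    have h2 : Filter.Tendsto (fun x => (a x + b x) • γ (b x / (a x + b x))) (nhds x₀) (nhds 0) := by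
      refine squeeze_zero_norm (fun x => ?_) h1
      rw [norm_smul, Real.norm_eq_abs]
      exact mul_le_mul_of_nonneg_left (hM _) (abs_nonneg _)
    rw [ContinuousAt]
    simpa [h] using h2
  · refine ContinuousAt.smul hs.continuousAt ?_
    exact hγ.continuousAt.comp (f := fun x => b x / (a x + b x))
      (hb.continuousAt.div hs.continuousAt h)

/-- a vector of `ℝ²` completed by a last coordinate `0` -/
def ext3 (x : Fin 2 → ℝ) : Fin 3 → ℝ := ![x 0, x 1, 0]

lemma ext3_neg (x : Fin 2 → ℝ) : ext3 (-x) = -ext3 x := by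
  ext k
  fin_cases k <;> simp [ext3]

lemma continuous_ext3 : Continuous ext3 := by
  refine continuous_pi fun k => ?_
  fin_cases k
  · exact continuous_apply 0
  · exact continuous_apply 1
  · exact continuous_const

lemma ext3_ne {x : Fin 2 → ℝ} (h : x ≠ 0) : ext3 x ≠ 0 := by
  intro h0
  apply h
  ext k
  fin_cases k
  · have := congrFun h0 0
    simpa [ext3] using this
  · have := congrFun h0 1
    simpa [ext3] using this

/-- the four dimensional parameter space -/
abbrev V : Type := (Fin 2 → ℝ) × (Fin 2 → ℝ)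

/-- version for globally defined bounded continuous paths -/
theorem k33_aux [FiniteDimensional ℝ P] (hP : Module.finrank ℝ P ≤ 2) (u w : Fin 3 → P)
    (γ : Fin 3 → Fin 3 → ℝ → P) (hγ : ∀ i j, Continuous (γ i j)) (M : ℝ)
    (hM : ∀ i j t, ‖γ i j t‖ ≤ M) (h0 : ∀ i j, γ i j 0 = u i) (h1 : ∀ i j, γ i j 1 = w j) :
    ∃ i i' j j' : Fin 3, i ≠ i' ∧ j ≠ j' ∧ ∃ s ∈ Icc (0 : ℝ) 1, ∃ t ∈ Icc (0 : ℝ) 1,
      γ i j s = γ i' j' t := by
  classical
  let a : Fin 3 → V → ℝ := fun i v => wt (ext3 v.1) i
  let b : Fin 3 → V → ℝ := fun j v => wt (ext3 v.2) j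
  have ca : ∀ i, Continuous (a i) := fun i =>
    continuous_wt (fun v : V => ext3 v.1) (continuous_ext3.comp continuous_fst) i
  have cb : ∀ j, Continuous (b j) := fun j =>
    continuous_wt (fun v : V => ext3 v.2) (continuous_ext3.comp continuous_snd) j
  let m : V → ℝ := fun v => ∑ i, a i v + ∑ j, b j v
  let Φ : V → P := fun v => ∑ i, a i v • u i + ∑ j, b j v • w j
    + ∑ i, ∑ j, psi (γ i j) (u i) (w j) (a i v) (b j v)
  have cm : Continuous m := (continuous_finsetSum _ fun i _ => ca i).add
    (continuous_finsetSum _ fun j _ => cb j)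
  have cΦ : Continuous Φ := by
    refine ((continuous_finsetSum _ fun i _ => (ca i).smul continuous_const).add
      (continuous_finsetSum _ fun j _ => (cb j).smul continuous_const)).add ?_
    exact continuous_finsetSum _ fun i _ => continuous_finsetSum _ fun j _ =>
      continuous_psi (hγ i j) (hM i j) _ _ (ca i) (cb j)
  let F : V → ℝ × P := fun v => (m v - m (-v), Φ v - Φ (-v))
  have cF : Continuous F := by
    refine Continuous.prodMk ?_ ?_
    · exact cm.sub (cm.comp continuous_neg)
    · exact cΦ.sub (cΦ.comp continuous_neg)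
  have hfin : Module.finrank ℝ (ℝ × P) < Module.finrank ℝ V := by
    rw [Module.finrank_prod, Module.finrank_prod]
    simp only [Module.finrank_self, Module.finrank_fin_fun]
    omega
  obtain ⟨v, hv, hFv⟩ := Pool.Agent.Lib.BorsukUlam.exists_zero_of_odd hfin F cF.continuousOn
    (fun v _ => by simp only [F, neg_neg, Prod.neg_mk, neg_sub])
  have e1 : m v = m (-v) := by
    have := congrArg Prod.fst hFv
    simpa [F, sub_eq_zero] using this
  have e2 : Φ v = Φ (-v) := by
    have := congrArg Prod.snd hFv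
    simpa [F, sub_eq_zero] using this
  -- value of `Φ` when the weights are concentrated
  have key : ∀ (v : V) (i j : Fin 3), (∀ k, k ≠ i → a k v = 0) → (∀ k, k ≠ j → b k v = 0) →
      m v = a i v + b j v ∧ Φ v = m v • γ i j (b j v / m v) := by
    intro v i j hi hj
    have hm : m v = a i v + b j v := by
      simp only [m]
      rw [Finset.sum_eq_single i (fun k _ hk => hi k hk) (by simp),
        Finset.sum_eq_single j (fun k _ hk => hj k hk) (by simp)]
    refine ⟨hm, ?_⟩
    simp only [Φ]
    rw [Finset.sum_eq_single i (fun k _ hk => by rw [hi k hk, zero_smul]) (by simp),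
      Finset.sum_eq_single j (fun k _ hk => by rw [hj k hk, zero_smul]) (by simp),
      Finset.sum_eq_single i, Finset.sum_eq_single j]
    · rw [hm, psi]
      abel
    · intro k _ hk
      rw [hj k hk]
      exact psi_zero_right (h0 _ _)
    · simp
    · intro k _ hk
      refine Finset.sum_eq_zero fun l _ => ?_
      rw [hi k hk]
      exact psi_zero_left (h1 _ _)
    · simp
  obtain ⟨i, i', hii, hi, hi'⟩ := exists_index (ext3 v.1)
  obtain ⟨j, j', hjj, hj, hj'⟩ := exists_index (ext3 v.2)
  obtain ⟨m1, f1⟩ := key v i j hi hj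
  have hi'' : ∀ k, k ≠ i' → a k (-v) = 0 := by
    intro k hk
    simp only [a, Prod.fst_neg, ext3_neg]
    exact hi' k hk
  have hj'' : ∀ k, k ≠ j' → b k (-v) = 0 := by
    intro k hk
    simp only [b, Prod.snd_neg, ext3_neg]
    exact hj' k hk
  obtain ⟨m2, f2⟩ := key (-v) i' j' hi'' hj''
  have a0 : ∀ i v, 0 ≤ a i v := fun i v => wt_nonneg _ _
  have b0 : ∀ i v, 0 ≤ b i v := fun i v => wt_nonneg _ _
  have hpos : 0 < m v := by
    by_contra hneg
    have hm0 : m v = 0 := by
      refine le_antisymm (not_lt.1 hneg) ?_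
      rw [m1]
      exact add_nonneg (a0 _ _) (b0 _ _)
    have hm0' : m (-v) = 0 := by rw [← e1, hm0]
    apply hv
    have hA : ∀ (v : V), m v = 0 → ∀ k, a k v = 0 ∧ b k v = 0 := by
      intro v hmv k
      have h1 : ∑ i, a i v = 0 ∧ ∑ j, b j v = 0 := by
        have s1 : 0 ≤ ∑ i, a i v := Finset.sum_nonneg fun i _ => a0 i v
        have s2 : 0 ≤ ∑ i, b i v := Finset.sum_nonneg fun i _ => b0 i v
        simp only [m] at hmv
        constructor <;> linarith
      exact ⟨(Finset.sum_eq_zero_iff_of_nonneg fun i _ => a0 i v).1 h1.1 k (Finset.mem_univ _),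
        (Finset.sum_eq_zero_iff_of_nonneg fun i _ => b0 i v).1 h1.2 k (Finset.mem_univ _)⟩
    have hz1 := hA v hm0
    have hz2 := hA (-v) hm0'
    refine Prod.ext ?_ ?_
    · by_contra hne
      obtain ⟨k, hk⟩ := exists_pos (ext3 v.1) (by simp [ext3]) (ext3_ne hne)
      rcases hk with hk | hk
      · have := (hz1 k).1
        simp only [a] at this
        linarith
      · have := (hz2 k).1
        simp only [a, Prod.fst_neg, ext3_neg] at this
        linarith
    · by_contra hne
      obtain ⟨k, hk⟩ := exists_pos (ext3 v.2) (by simp [ext3]) (ext3_ne hne)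
      rcases hk with hk | hk
      · have := (hz1 k).2
        simp only [b] at this
        linarith
      · have := (hz2 k).2
        simp only [b, Prod.snd_neg, ext3_neg] at this
        linarith
  have hpos' : 0 < m (-v) := by rw [← e1]; exact hpos
  refine ⟨i, i', j, j', hii, hjj, b j v / m v, ⟨div_nonneg (b0 _ _) hpos.le, ?_⟩,
    b j' (-v) / m (-v), ⟨div_nonneg (b0 _ _) hpos'.le, ?_⟩, ?_⟩
  · rw [div_le_one hpos, m1]
    linarith [a0 i v]
  · rw [div_le_one hpos', m2]
    linarith [a0 i' (-v)]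
  · rw [f1, f2, ← e1] at e2
    rw [← e1]
    exact smul_right_injective P hpos.ne' e2

/-- **Non-planarity of `K_{3,3}`.** -/
theorem k33 [FiniteDimensional ℝ P] (hP : Module.finrank ℝ P ≤ 2) (u w : Fin 3 → P)
    (γ : Fin 3 → Fin 3 → ℝ → P) (hγ : ∀ i j, ContinuousOn (γ i j) (Icc 0 1))
    (h0 : ∀ i j, γ i j 0 = u i) (h1 : ∀ i j, γ i j 1 = w j) :
    ∃ i i' j j' : Fin 3, i ≠ i' ∧ j ≠ j' ∧ ∃ s ∈ Icc (0 : ℝ) 1, ∃ t ∈ Icc (0 : ℝ) 1,
      γ i j s = γ i' j' t := by
  have hI : ∀ t : ℝ, max 0 (min 1 t) ∈ Icc (0 : ℝ) 1 := fun t =>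
    ⟨le_max_left _ _, max_le zero_le_one (min_le_left _ _)⟩
  have hbdd : ∀ i j, ∃ M, ∀ t ∈ Icc (0 : ℝ) 1, ‖γ i j t‖ ≤ M := fun i j =>
    isCompact_Icc.exists_bound_of_continuousOn (hγ i j)
  choose M hM using hbdd
  obtain ⟨i, i', j, j', hii, hjj, s, hs, t, ht, hst⟩ := k33_aux hP u w
    (fun i j t => γ i j (max 0 (min 1 t)))
    (fun i j => (hγ i j).comp_continuous (by fun_prop) hI)
    (∑ i, ∑ j, |M i j|)
    (fun i j t => by
      refine (hM i j _ (hI t)).trans ((le_abs_self _).trans ?_)
      refine (Finset.single_le_sum (f := fun j => |M i j|) (fun j _ => abs_nonneg _)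
        (Finset.mem_univ j)).trans ?_
      exact Finset.single_le_sum (f := fun i => ∑ j, |M i j|)
        (fun i _ => Finset.sum_nonneg fun j _ => abs_nonneg _) (Finset.mem_univ i))
    (fun i j => by simp [h0]) (fun i j => by simp [h1])
  exact ⟨i, i', j, j', hii, hjj, _, hI s, _, hI t, hst⟩

end Pool.Agent.H52LP
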