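import Pool.Agent.H52LP.Defs
import Pool.Agent.H52LP.K33

/-!
# A 4-locally planar graph contains no 1-subdivision of `K₆`
-/

namespace Pool.Agent.H52LP

open Set

variable {V : Type*} {G : SimpleGraph V}

lemma Drawing.LocallyPlanar.mono {D : Drawing G} {k l : ℕ} (h : D.LocallyPlanar l) (hkl : k ≤ l) :
    D.LocallyPlanar k :=
  fun u v p hp hl => h u v p hp (hl.trans hkl)

/-- two vertex-disjoint edges whose endpoints have a common neighbour are disjoint arcs -/
lemma Drawing.LocallyPlanar.disjoint {D : Drawing G} (h : D.LocallyPlanar 4) {x y z b c : V}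
    (hxb : G.Adj x b) (hxz : G.Adj x z) (hyz : G.Adj y z) (hyc : G.Adj y c)
    (hxy : x ≠ y) (hbz : b ≠ z) (hby : b ≠ y) (hbc : b ≠ c) (hxc : x ≠ c) (hzc : z ≠ c) :
    Disjoint (D.arc x b) (D.arc y c) := by
  rw [Set.disjoint_left]
  intro p hp1 hp2
  let W : G.Walk b c := SimpleGraph.Walk.cons hxb.symm (SimpleGraph.Walk.cons hxz
    (SimpleGraph.Walk.cons hyz.symm (SimpleGraph.Walk.cons hyc SimpleGraph.Walk.nil)))
  have hW : W.IsPath := by
    simp only [W, SimpleGraph.Walk.cons_isPath_iff, SimpleGraph.Walk.support_cons,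
      SimpleGraph.Walk.support_nil, SimpleGraph.Walk.IsPath.nil, List.mem_cons,
      List.not_mem_nil, or_false, not_or, true_and]
    exact ⟨⟨⟨hyc.ne, hyz.ne', hzc⟩, hxz.ne, hxy, hxc⟩, hxb.ne', hbz, hby, hbc⟩
  obtain ⟨w, rfl⟩ := h b c W hW (by simp [W]) ⟨(b, x), hxb.symm⟩ (by simp [W])
    ⟨(y, c), hyc⟩ (by simp [W]) (by
      simp only [ne_eq, SimpleGraph.Dart.edge_mk, Sym2.eq_iff]
      tauto) p (by simpa [D.arc_symm b x] using hp1) hp2
  rcases D.avoid _ _ _ hxb hp1 with rfl | rfl <;> rcases D.avoid _ _ _ hyc hp2 with h | h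
  · exact hxy h
  · exact hxc h
  · exact hby h
  · exact hbc h

section conc

variable {P : Type*} [NormedAddCommGroup P]

/-- concatenation of two paths (`f 1 = g 0`) -/
noncomputable def conc (f g : ℝ → P) (t : ℝ) : P :=
  f (min 1 (2 * t)) + g (max 0 (2 * t - 1)) - f 1

lemma continuousOn_conc {f g : ℝ → P} (hf : ContinuousOn f (Icc 0 1))
    (hg : ContinuousOn g (Icc 0 1)) : ContinuousOn (conc f g) (Icc 0 1) := by
  unfold conc
  refine (ContinuousOn.add (hf.comp (f := fun t : ℝ => min 1 (2 * t)) (by fun_prop) ?_)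
    (hg.comp (f := fun t : ℝ => max 0 (2 * t - 1)) (by fun_prop) ?_)).sub continuousOn_const
  · intro t ht
    exact ⟨le_min zero_le_one (by linarith [ht.1]), min_le_left _ _⟩
  · intro t ht
    exact ⟨le_max_left _ _, max_le zero_le_one (by linarith [ht.2])⟩

lemma conc_zero {f g : ℝ → P} (h : f 1 = g 0) : conc f g 0 = f 0 := by
  have : max (0 : ℝ) (2 * 0 - 1) = 0 := by norm_num
  simp [conc, h]

lemma conc_one {f g : ℝ → P} : conc f g 1 = g 1 := by
  have h1 : min (1 : ℝ) (2 * 1) = 1 := by norm_num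
  have h2 : max (0 : ℝ) (2 * 1 - 1) = 1 := by norm_num
  rw [conc, h1, h2]
  abel

lemma conc_mem {f g : ℝ → P} (h : f 1 = g 0) {t : ℝ} (ht : t ∈ Icc (0 : ℝ) 1) :
    conc f g t ∈ f '' Icc 0 1 ∨ conc f g t ∈ g '' Icc 0 1 := by
  rcases le_total t (1 / 2) with h' | h'
  · left
    have h1 : min (1 : ℝ) (2 * t) = 2 * t := min_eq_right (by linarith)
    have h2 : max (0 : ℝ) (2 * t - 1) = 0 := max_eq_left (by linarith)
    refine ⟨2 * t, ⟨by linarith [ht.1], by linarith⟩, ?_⟩
    simp [conc, h1, h2, h]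
  · right
    have h1 : min (1 : ℝ) (2 * t) = 1 := min_eq_left (by linarith)
    have h2 : max (0 : ℝ) (2 * t - 1) = 2 * t - 1 := max_eq_right (by linarith)
    refine ⟨2 * t - 1, ⟨by linarith, by linarith [ht.2]⟩, ?_⟩
    simp [conc, h1, h2]

end conc

/-- `a` and `b` form a 1-subdivision of `K₆` in `G` -/
structure IsK6Sub (G : SimpleGraph V) (a : Fin 6 → V) (b : Fin 6 → Fin 6 → V) : Prop where
  inj : Function.Injective a
  adj : ∀ i j, i ≠ j → G.Adj (a i) (b i j)
  symm : ∀ i j, b i j = b j i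
  ne : ∀ i j k, i ≠ j → b i j ≠ a k
  inj' : ∀ i j k l, i ≠ j → k ≠ l → b i j = b k l → (i = k ∧ j = l) ∨ (i = l ∧ j = k)

/-- **A 4-locally planar graph contains no 1-subdivision of `K₆`.** -/
theorem no_K6Sub (D : Drawing G) (h : D.LocallyPlanar 4) (a : Fin 6 → V)
    (b : Fin 6 → Fin 6 → V) (hab : IsK6Sub G a b) : False := by
  classical
  let l : Fin 3 → Fin 6 := fun i => i.castLE (by omega)
  let r : Fin 3 → Fin 6 := fun i => i.natAdd 3
  have hlr : ∀ i j, l i ≠ r j := by decide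
  have hl : ∀ i j, i ≠ j → l i ≠ l j := by decide
  have hr : ∀ i j, i ≠ j → r i ≠ r j := by decide
  have adj1 : ∀ i j, G.Adj (a (l i)) (b (l i) (r j)) := fun i j => hab.adj _ _ (hlr i j)
  have adj2 : ∀ i j, G.Adj (b (l i) (r j)) (a (r j)) := fun i j => by
    rw [hab.symm]
    exact (hab.adj _ _ (hlr i j).symm).symm
  choose f hfc hfi hf0 hf1 hf using fun i j => D.isArc _ _ (adj1 i j)
  choose g hgc hgi hg0 hg1 hg using fun i j => D.isArc _ _ (adj2 i j)
  have hfg : ∀ i j, f i j 1 = g i j 0 := fun i j => by rw [hf1, hg0]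
  obtain ⟨i, i', j, j', hii, hjj, s, hs, t, ht, hst⟩ := k33 (P := EuclideanSpace ℝ (Fin 2))
    (by simp) (fun i => D.pt (a (l i))) (fun j => D.pt (a (r j)))
    (fun i j => conc (f i j) (g i j)) (fun i j => continuousOn_conc (hfc i j) (hgc i j))
    (fun i j => by rw [conc_zero (hfg i j), hf0]) (fun i j => by rw [conc_one, hg1])
  -- general statement: edges at `b (l i) (r j)` and `b (l i') (r j')` are disjoint
  have key : ∀ x y : Fin 6, (x = l i ∨ x = r j) → (y = l i' ∨ y = r j') →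
      Disjoint (D.arc (a x) (b (l i) (r j))) (D.arc (a y) (b (l i') (r j'))) := by
    intro x y hx hy
    have hxy : x ≠ y := by
      rcases hx with rfl | rfl <;> rcases hy with rfl | rfl
      · exact hl _ _ hii
      · exact hlr _ _
      · exact (hlr _ _).symm
      · exact hr _ _ hjj
    have ax : G.Adj (a x) (b (l i) (r j)) := by
      rcases hx with rfl | rfl
      · exact adj1 _ _
      · exact (adj2 _ _).symm
    have ay : G.Adj (a y) (b (l i') (r j')) := by
      rcases hy with rfl | rfl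
      · exact adj1 _ _
      · exact (adj2 _ _).symm
    have bz : b (l i) (r j) ≠ b x y := by
      intro he
      rcases hab.inj' _ _ _ _ (hlr i j) hxy he with ⟨h1, h2⟩ | ⟨h1, h2⟩
      · subst h2
        rcases hy with hy | hy
        · exact hlr _ _ hy.symm
        · exact hr _ _ hjj hy
      · subst h1
        rcases hy with hy | hy
        · exact hl _ _ hii hy
        · exact hlr _ _ hy
    have zc : b x y ≠ b (l i') (r j') := by
      intro he
      rcases hab.inj' _ _ _ _ hxy (hlr i' j') he with ⟨h1, h2⟩ | ⟨h1, h2⟩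
      · subst h1
        rcases hx with hx | hx
        · exact hl _ _ hii hx.symm
        · exact hlr _ _ hx
      · subst h1
        rcases hx with hx | hx
        · exact hlr _ _ hx.symm
        · exact hr _ _ hjj hx.symm
    have bc : b (l i) (r j) ≠ b (l i') (r j') := by
      intro he
      rcases hab.inj' _ _ _ _ (hlr i j) (hlr i' j') he with ⟨h1, h2⟩ | ⟨h1, h2⟩
      · exact hl _ _ hii h1
      · exact hlr _ _ h1
    exact h.disjoint ax (hab.adj x y hxy) (by rw [hab.symm x y]; exact hab.adj y x hxy.symm) ay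
      (hab.inj.ne hxy) bz (hab.ne _ _ _ (hlr i j)) bc (hab.ne _ _ _ (hlr i' j')).symm zc
  have m1 := conc_mem (hfg i j) hs
  have m2 := conc_mem (hfg i' j') ht
  rw [← hst] at m2
  rw [← hf, ← hg] at m1 m2
  rw [D.arc_symm _ (a (r j))] at m1
  rw [D.arc_symm _ (a (r j'))] at m2
  rcases m1 with m1 | m1 <;> rcases m2 with m2 | m2
  · exact Set.disjoint_left.1 (key _ _ (Or.inl rfl) (Or.inl rfl)) m1 m2
  · exact Set.disjoint_left.1 (key _ _ (Or.inl rfl) (Or.inr rfl)) m1 m2
  · exact Set.disjoint_left.1 (key _ _ (Or.inr rfl) (Or.inl rfl)) m1 m2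
  · exact Set.disjoint_left.1 (key _ _ (Or.inr rfl) (Or.inr rfl)) m1 m2

end Pool.Agent.H52LP
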