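import Mathlib

/-!
# Drawings of graphs in the plane and `k`-local planarity
-/

namespace Pool.Agent.H52LP

open Set

/-- A drawing of the graph `G` in the plane (a topological graph): the vertices are distinct points,
every edge `uv` is a Jordan arc (the image of `[0,1]` under an injective continuous map) joining the
points of `u` and `v` which passes through no other vertex. -/
structure Drawing {V : Type*} (G : SimpleGraph V) where
  /-- the points representing the vertices -/
  pt : V → EuclideanSpace ℝ (Fin 2)
  pt_injective : Function.Injective pt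
  /-- the arcs representing the edges -/
  arc : V → V → Set (EuclideanSpace ℝ (Fin 2))
  arc_symm : ∀ u v, arc u v = arc v u
  isArc : ∀ u v, G.Adj u v → ∃ γ : ℝ → EuclideanSpace ℝ (Fin 2),
    ContinuousOn γ (Icc 0 1) ∧ InjOn γ (Icc 0 1) ∧ γ 0 = pt u ∧ γ 1 = pt v ∧
      arc u v = γ '' Icc 0 1
  avoid : ∀ u v w, G.Adj u v → pt w ∈ arc u v → w = u ∨ w = v

/-- A drawing is `k`-locally planar if no path of length at most `k` has a self-crossing: any two
distinct edges of such a path have no common point except vertices (that is, except a common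
endpoint). -/
def Drawing.LocallyPlanar {V : Type*} {G : SimpleGraph V} (D : Drawing G) (k : ℕ) : Prop :=
  ∀ (u v : V) (p : G.Walk u v), p.IsPath → p.length ≤ k →
    ∀ d₁ ∈ p.darts, ∀ d₂ ∈ p.darts, d₁.edge ≠ d₂.edge →
      ∀ x, x ∈ D.arc d₁.fst d₁.snd → x ∈ D.arc d₂.fst d₂.snd → ∃ w : V, x = D.pt w

end Pool.Agent.H52LP
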