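import Pool.Agent.H52LP.Iter

/-!
# Turán-type theorem for the 1-subdivision of `K₆` and the bound for 4-locally planar graphs
-/

namespace Pool.Agent.H52LP

open Finset

variable {V : Type*} [Fintype V]

omit [Fintype V] in
lemma IsK6Sub.mono {G H : SimpleGraph V} (h : G ≤ H) {a : Fin 6 → V} {b : Fin 6 → Fin 6 → V}
    (hab : IsK6Sub G a b) : IsK6Sub H a b :=
  ⟨hab.inj, fun i j hij => h (hab.adj i j hij), hab.symm, hab.ne, hab.inj'⟩

open Classical in
/-- Every graph with `n = N ^ 13` vertices and at least `200 N ^ 19` edges contains a 1-subdivision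
of `K₆`. -/
theorem exists_K6Sub {G : SimpleGraph V} {N : ℝ} (hN : 1 ≤ N)
    (hn : (Fintype.card V : ℝ) = N ^ 13) (he : 200 * N ^ 19 ≤ (G.edgeFinset.card : ℝ)) :
    ∃ a b, IsK6Sub G a b := by
  by_contra hcon
  push Not at hcon
  have hN0 : 0 < N := by linarith
  set n : ℝ := (Fintype.card V : ℝ) with hn'
  have hn0 : 0 < n := by rw [hn]; positivity
  have hnV : 0 < Fintype.card V := by
    rw [hn'] at hn0
    exact_mod_cast hn0
  set e : ℝ := (G.edgeFinset.card : ℝ) with he'
  have he0 : 0 < e := lt_of_lt_of_le (by positivity) he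
  have hdeg : ∑ v, (G.degree v : ℝ) = 2 * e := by
    rw [he']
    exact_mod_cast G.sum_degrees_eq_twice_card_edges
  have hdn : ∀ v, (G.degree v : ℝ) ≤ n := fun v => by
    rw [hn']
    exact_mod_cast (G.degree_lt_card_verts v).le
  have hen : 2 * e ≤ n ^ 2 := by
    rw [← hdeg]
    have := sum_le_card_nsmul univ (fun v => (G.degree v : ℝ)) n (fun v _ => hdn v)
    rw [nsmul_eq_mul, card_univ, ← hn'] at this
    nlinarith
  set D : ℝ := 420 * n ^ 2 / e with hD
  have hD10 : 10 ≤ D := by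
    rw [hD, le_div_iff₀ he0]
    nlinarith
  have hD0 : 0 < D := by linarith
  -- vertices of high degree
  let Vh : Finset V := univ.filter fun b => D ≤ G.degree b
  have hVh : ∑ b ∈ Vh, (G.degree b : ℝ) ≤ e / 2 := by
    have h1 := sum_le_LP hcon Vh univ
    have h2 : ((LP G univ).card : ℝ) ≤ n ^ 2 := by
      have : (LP G univ).card ≤ Fintype.card V * Fintype.card V := by
        refine (card_filter_le _ _).trans ?_
        rw [card_product, card_univ]
      rw [hn', sq]
      exact_mod_cast this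
    have h3 : ∀ b ∈ Vh, D / 10 * (G.degree b : ℝ) ≤
        ((nb G univ b).card : ℝ) ^ 2 / 5 - (nb G univ b).card := by
      intro b hb
      have h4 : (nb G univ b).card = G.degree b := by
        rw [← SimpleGraph.card_neighborFinset_eq_degree, SimpleGraph.neighborFinset_eq_filter, nb]
        simp only [G.adj_comm]
      rw [h4]
      have h5 : D ≤ G.degree b := (mem_filter.1 hb).2
      nlinarith
    have h6 := (sum_le_sum h3).trans h1
    rw [← mul_sum] at h6
    have h7 : D * ∑ b ∈ Vh, (G.degree b : ℝ) ≤ 210 * n ^ 2 := by linarith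
    have h8 : D * (e / 2) = 210 * n ^ 2 := by
      rw [hD]
      field_simp
      norm_num
    rw [← h8] at h7
    exact le_of_mul_le_mul_left h7 hD0
  obtain ⟨G1, hG1'⟩ : ∃ G1 : SimpleGraph V, ∀ u v, G1.Adj u v ↔ G.Adj u v ∧ u ∉ Vh ∧ v ∉ Vh :=
    ⟨{ Adj := fun u v => G.Adj u v ∧ u ∉ Vh ∧ v ∉ Vh
       symm := ⟨fun u v h => ⟨h.1.symm, h.2.2, h.2.1⟩⟩
       loopless := ⟨fun u h => G.loopless.irrefl u h.1⟩ }, fun u v => Iff.rfl⟩
  have hG1 : G1 ≤ G := fun u v h => ((hG1' u v).1 h).1
  have hcon1 : ∀ a b, ¬IsK6Sub G1 a b := fun a b h => hcon a b (h.mono hG1)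
  have hdeg1 : ∀ v, (G1.degree v : ℝ) ≤ D := by
    intro v
    by_cases hv : v ∈ Vh
    · have : G1.degree v = 0 := by
        rw [SimpleGraph.degree_eq_zero_iff_notMem_support]
        rintro ⟨w, hw⟩
        exact ((hG1' _ _).1 hw).2.1 hv
      rw [this]
      simpa using hD0.le
    · have h1 : G1.degree v ≤ G.degree v := SimpleGraph.degree_le_of_le hG1
      have h2 : ¬D ≤ G.degree v := fun h => hv (mem_filter.2 ⟨mem_univ _, h⟩)
      have h3 : (G1.degree v : ℝ) ≤ G.degree v := by exact_mod_cast h1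
      linarith
  have hsum1 : e ≤ ∑ v, (G1.degree v : ℝ) := by
    have h1 : ∀ v, G.degree v ≤ G1.degree v + (if v ∈ Vh then G.degree v else 0) +
        (Vh.filter fun b => G.Adj v b).card := by
      intro v
      by_cases hv : v ∈ Vh
      · simp only [hv, if_true]
        omega
      · simp only [hv, if_false, add_zero]
        rw [← SimpleGraph.card_neighborFinset_eq_degree, ← SimpleGraph.card_neighborFinset_eq_degree]
        refine (card_le_card (t := G1.neighborFinset v ∪ Vh.filter fun b => G.Adj v b) ?_).trans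
          (card_union_le _ _)
        intro w hw
        rw [SimpleGraph.mem_neighborFinset] at hw
        rw [mem_union, SimpleGraph.mem_neighborFinset, mem_filter]
        by_cases hwV : w ∈ Vh
        · exact Or.inr ⟨hwV, hw⟩
        · exact Or.inl ((hG1' _ _).2 ⟨hw, hv, hwV⟩)
    have h2 : ∑ v, (Vh.filter fun b => G.Adj v b).card = ∑ b ∈ Vh, G.degree b := by
      simp only [card_filter]
      rw [sum_comm]
      refine sum_congr rfl fun b _ => ?_
      rw [← SimpleGraph.card_neighborFinset_eq_degree, SimpleGraph.neighborFinset_eq_filter,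
        card_filter]
      simp only [G.adj_comm]
    have h3 := sum_le_sum (fun v (_ : v ∈ (univ : Finset V)) => h1 v)
    rw [sum_add_distrib, sum_add_distrib, h2, sum_ite_mem, univ_inter] at h3
    have h4 : (∑ v, (G.degree v : ℝ)) ≤ ∑ v, (G1.degree v : ℝ) + ∑ b ∈ Vh, (G.degree b : ℝ)
        + ∑ b ∈ Vh, (G.degree b : ℝ) := by exact_mod_cast h3
    rw [hdeg] at h4
    linarith
  set δ : ℝ := e / (2 * n) with hδ
  have hδ0 : 0 < δ := by positivity
  let A : Finset V := univ.filter fun v => δ ≤ G1.degree v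
  have hA : ∀ v ∈ A, δ ≤ G1.degree v := fun v hv => (mem_filter.1 hv).2
  have hAcard : e ^ 2 / (840 * n ^ 2) ≤ (A.card : ℝ) := by
    have h1 : ∀ v, (G1.degree v : ℝ) ≤ (if v ∈ A then D else 0) + δ := by
      intro v
      by_cases hv : v ∈ A
      · simp only [hv, if_true]
        linarith [hdeg1 v]
      · simp only [hv, if_false]
        have : ¬δ ≤ G1.degree v := fun h => hv (mem_filter.2 ⟨mem_univ _, h⟩)
        linarith
    have h2 := sum_le_sum (fun v (_ : v ∈ (univ : Finset V)) => h1 v)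
    rw [sum_add_distrib, sum_ite_mem, univ_inter, sum_const, sum_const, nsmul_eq_mul,
      nsmul_eq_mul, card_univ, ← hn'] at h2
    have h3 : n * δ = e / 2 := by
      rw [hδ]
      field_simp
    have h4 : e / 2 ≤ A.card * D := by linarith
    rw [hD] at h4
    have h5 : e / 2 * e ≤ A.card * (420 * n ^ 2) := by
      have := mul_le_mul_of_nonneg_right h4 he0.le
      have h6 : (A.card : ℝ) * (420 * n ^ 2 / e) * e = A.card * (420 * n ^ 2) := by
        field_simp
      rw [h6] at this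
      exact this
    rw [div_le_iff₀ (by positivity)]
    nlinarith
  -- normalised quantities
  set E : ℝ := e / N ^ 19 with hE
  have hE200 : 200 ≤ E := by
    rw [hE, le_div_iff₀ (by positivity)]
    exact he
  have hE0 : 0 < E := by linarith
  have heE : e = E * N ^ 19 := by
    rw [hE]
    field_simp
  clear_value E
  have hκ : δ ^ 2 / (420 * n) = (E ^ 2 / 1680) / N := by
    rw [hδ, heE, hn]
    field_simp
    ring
  have hq1 : 1 ≤ E ^ 2 / 1680 := by
    rw [le_div_iff₀ (by norm_num)]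
    nlinarith
  have hA2 : E ^ 2 / 840 * N ^ 12 ≤ (A.card : ℝ) := by
    refine le_trans (le_of_eq ?_) hAcard
    rw [heE, hn]
    field_simp
  have hDE : D = 420 * N ^ 7 / E := by
    have : E ≠ 0 := hE0.ne'
    rw [hD, heE, hn]
    field_simp
  have hδE : δ = E / 2 * N ^ 6 := by
    rw [hδ, heE, hn]
    field_simp
  have hpow : ∀ m ≤ 4, 1 / N ^ 4 ≤ ((E ^ 2 / 1680) / N) ^ m := by
    intro m hm
    rw [div_pow (E ^ 2 / 1680) N m]
    exact div_le_div₀ (pow_nonneg (zero_le_one.trans hq1) _) (one_le_pow₀ hq1) (pow_pos hN0 _)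
      (pow_le_pow_right₀ hN hm)
  have hpow2 : ∀ m ≤ 4, (E ^ 2 / 1680) / N ^ 5 ≤ ((E ^ 2 / 1680) / N) ^ (m + 1) := by
    intro m hm
    rw [div_pow (E ^ 2 / 1680) N (m + 1)]
    exact div_le_div₀ (pow_nonneg (zero_le_one.trans hq1) _) (le_self_pow₀ hq1 (Nat.succ_ne_zero m)) (pow_pos hN0 _)
      (pow_le_pow_right₀ hN (Nat.succ_le_succ hm))
  have hA0 : 0 ≤ E ^ 2 / 840 * N ^ 12 :=
    mul_nonneg (div_nonneg (pow_nonneg hE0.le _) (by norm_num)) (pow_nonneg hN0.le _)
  have hq0 : 0 ≤ (E ^ 2 / 1680) / N := div_nonneg (by linarith) hN0.le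
  refine core hcon1 hδ0 hnV hdeg1 hA ?_ ?_
  · intro m hm
    rw [← hn', hκ]
    have h1 := mul_le_mul (hpow m hm) hA2 hA0 (pow_nonneg hq0 _)
    refine le_trans ?_ (mul_le_mul_of_nonneg_left h1 hδ0.le)
    rw [hδE, hn]
    have h2 : E / 2 * N ^ 6 * (1 / N ^ 4 * (E ^ 2 / 840 * N ^ 12)) = E ^ 3 / 1680 * N ^ 14 := by
      field_simp
      norm_num
    rw [h2]
    have h3 : (200 : ℝ) ^ 3 ≤ E ^ 3 := pow_le_pow_left₀ (by norm_num) hE200 3
    have h4 : N ^ 13 ≤ N ^ 14 := pow_le_pow_right₀ hN (by norm_num)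
    have h5 : (0 : ℝ) < N ^ 13 := by positivity
    have h6 : 10 ≤ E ^ 3 / 1680 := by
      rw [le_div_iff₀ (by norm_num)]
      linarith
    exact mul_le_mul h6 h4 h5.le (by linarith)
  · intro m hm
    rw [← hn', hκ]
    have h1 := mul_le_mul (hpow2 m hm) hA2 hA0 (pow_nonneg hq0 _)
    refine le_trans ?_ h1
    rw [hDE]
    have h2 : (E ^ 2 / 1680) / N ^ 5 * (E ^ 2 / 840 * N ^ 12) = E ^ 4 / 1411200 * N ^ 7 := by
      field_simp
      norm_num
    rw [h2]
    have h3 : (200 : ℝ) ^ 5 ≤ E ^ 5 := pow_le_pow_left₀ (by norm_num) hE200 5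
    have h4 : 127 * (420 * N ^ 7 / E) = 53340 / E * N ^ 7 := by
      field_simp
      norm_num
    rw [h4]
    refine mul_le_mul_of_nonneg_right ?_ (by positivity)
    rw [div_le_div_iff₀ hE0 (by norm_num)]
    nlinarith

open Classical in
/-- **Every 4-locally planar graph on `n` vertices has at most `200 n ^ {19/13}` edges.** -/
theorem card_edges_le {G : SimpleGraph V} (D : Drawing G) (hD : D.LocallyPlanar 4) :
    (G.edgeFinset.card : ℝ) ≤ 200 * (Fintype.card V : ℝ) ^ (19 / 13 : ℝ) := by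
  rcases Nat.eq_zero_or_pos (Fintype.card V) with h0 | h0
  · have : IsEmpty V := Fintype.card_eq_zero_iff.1 h0
    have h1 : G.edgeFinset.card = 0 := by
      rw [card_eq_zero]
      ext e
      induction e with
      | _ u v => exact isEmptyElim u
    rw [h1, Nat.cast_zero]
    exact mul_nonneg (by norm_num) (Real.rpow_nonneg (Nat.cast_nonneg _) _)
  by_contra hcon
  push Not at hcon
  set N : ℝ := (Fintype.card V : ℝ) ^ (1 / 13 : ℝ) with hN
  have hn1 : (1 : ℝ) ≤ Fintype.card V := by exact_mod_cast h0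
  have hN1 : 1 ≤ N := Real.one_le_rpow hn1 (by norm_num)
  have hn0 : (0 : ℝ) ≤ Fintype.card V := by positivity
  have e1 : (Fintype.card V : ℝ) = N ^ 13 := by
    rw [hN, ← Real.rpow_natCast, ← Real.rpow_mul hn0]
    norm_num
  have e2 : (Fintype.card V : ℝ) ^ (19 / 13 : ℝ) = N ^ 19 := by
    rw [hN, ← Real.rpow_natCast, ← Real.rpow_mul hn0]
    norm_num
  rw [e2] at hcon
  obtain ⟨a, b, hab⟩ := exists_K6Sub (G := G) hN1 e1 hcon.le
  exact no_K6Sub D hD a b hab

end Pool.Agent.H52LP
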