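import Pool.Agent.H52LP.Turan

/-!
# Iterating the light neighbourhood step
-/

namespace Pool.Agent.H52LP

open Finset

variable {V : Type*} [Fintype V]

open Classical in
lemma iter {G : SimpleGraph V} (hG : ∀ a b, ¬IsK6Sub G a b) {δ D : ℝ} (hδ : 0 ≤ δ)
    (hn : 0 < Fintype.card V) (hD : ∀ v, (G.degree v : ℝ) ≤ D)
    {A : Finset V} (hA : ∀ v ∈ A, δ ≤ G.degree v)
    (c1 : ∀ m ≤ 4, 10 * (Fintype.card V : ℝ) ≤
      δ * ((δ ^ 2 / (420 * Fintype.card V)) ^ m * A.card))
    (c2 : ∀ m ≤ 4, 127 * D ≤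
      (δ ^ 2 / (420 * Fintype.card V)) ^ (m + 1) * A.card) (m : ℕ) (hm : m ≤ 5) :
    ∃ T U : Finset V, T.card = m ∧ U ⊆ A ∧ Good G T U ∧
      (δ ^ 2 / (420 * Fintype.card V)) ^ m * A.card ≤ (U.card : ℝ) := by
  set n : ℝ := (Fintype.card V : ℝ) with hn'
  have hn0 : 0 < n := by
    rw [hn']
    exact_mod_cast hn
  set κ : ℝ := δ ^ 2 / (420 * n) with hκ
  have hκ0 : 0 ≤ κ := by positivity
  have hκ2 : δ ^ 2 / (210 * n) = 2 * κ := by
    rw [hκ]
    field_simp
    ring
  have hD0 : 0 ≤ D := by
    have : Nonempty V := Fintype.card_pos_iff.1 hn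
    exact (Nat.cast_nonneg _).trans (hD this.some)
  induction m with
  | zero =>
    refine ⟨∅, A, by simp, subset_rfl, ⟨?_, ?_, ?_, ?_, ?_, ?_⟩, by simp⟩ <;> simp
  | succ m ih =>
    obtain ⟨T, U, hT, hUA, hgood, hU⟩ := ih (by omega)
    have h10 : 10 * n ≤ δ * U.card :=
      (c1 m (by omega)).trans (mul_le_mul_of_nonneg_left hU hδ)
    obtain ⟨v, hv, hvL⟩ := exists_light hG hδ (fun w hw => hA w (hUA hw)) hn h10
    rw [← hn', hκ2] at hvL
    -- the bad vertices
    let B1 : Finset V := univ.filter fun w => G.Adj v w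
    let B2 : Finset V := T.biUnion fun x => (cn G x v).biUnion fun b =>
      univ.filter fun w => G.Adj w b
    have hB1 : (B1.card : ℝ) ≤ D := by
      have : B1.card = G.degree v := by
        rw [← SimpleGraph.card_neighborFinset_eq_degree, SimpleGraph.neighborFinset_eq_filter]
      rw [this]
      exact hD v
    have hB2 : (B2.card : ℝ) ≤ 126 * D := by
      have h1 : B2.card ≤ ∑ x ∈ T, ∑ b ∈ cn G x v, (univ.filter fun w => G.Adj w b).card :=
        card_biUnion_le.trans (sum_le_sum fun x _ => card_biUnion_le)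
      have h2 : ((∑ x ∈ T, ∑ b ∈ cn G x v, (univ.filter fun w => G.Adj w b).card : ℕ) : ℝ) ≤
          ∑ x ∈ T, (21 * D) := by
        push_cast
        refine sum_le_sum fun x hx => ?_
        have h3 : ∀ b ∈ cn G x v, ((univ.filter fun w => G.Adj w b).card : ℝ) ≤ D := by
          intro b _
          have : (univ.filter fun w => G.Adj w b).card = G.degree b := by
            rw [← SimpleGraph.card_neighborFinset_eq_degree,
              SimpleGraph.neighborFinset_eq_filter]
            simp only [G.adj_comm]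
          rw [this]
          exact hD b
        have h4 := sum_le_card_nsmul (cn G x v)
          (fun b => ((univ.filter fun w => G.Adj w b).card : ℝ)) D h3
        rw [nsmul_eq_mul] at h4
        refine h4.trans (mul_le_mul_of_nonneg_right ?_ hD0)
        have := (hgood.ulight v hv x hx).2.1
        exact_mod_cast this.le
      have h5 : (B2.card : ℝ) ≤ ∑ x ∈ T, (21 * D) :=
        le_trans (by exact_mod_cast h1) h2
      rw [sum_const, nsmul_eq_mul, hT] at h5
      have h6 : (m : ℝ) ≤ 6 := by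
        have : m ≤ 6 := by omega
        exact_mod_cast this
      nlinarith
    let U' := lightNb G U v \ (B1 ∪ B2)
    have hU'card : κ ^ (m + 1) * A.card ≤ (U'.card : ℝ) := by
      have h1 : (lightNb G U v).card ≤ U'.card + (B1.card + B2.card) := by
        have h2 := le_card_sdiff (B1 ∪ B2) (lightNb G U v)
        have h3 := card_union_le B1 B2
        simp only [U']
        omega
      have h2 : ((lightNb G U v).card : ℝ) ≤ U'.card + (B1.card + B2.card) := by
        exact_mod_cast h1
      have h3 : 127 * D ≤ κ * U.card := by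
        have := c2 m (by omega)
        have h4 : κ ^ (m + 1) * A.card = κ * (κ ^ m * A.card) := by ring
        rw [h4] at this
        exact this.trans (mul_le_mul_of_nonneg_left hU hκ0)
      have h5 : κ ^ (m + 1) * A.card ≤ κ * U.card := by
        have h4 : κ ^ (m + 1) * A.card = κ * (κ ^ m * A.card) := by ring
        rw [h4]
        exact mul_le_mul_of_nonneg_left hU hκ0
      linarith
    have hU'sub : U' ⊆ U := fun w hw => (mem_lightNb.1 (mem_sdiff.1 hw).1).1
    refine ⟨insert v T, U', ?_, hU'sub.trans hUA, ?_, hU'card⟩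
    · rw [card_insert_of_notMem, hT]
      intro hvT
      exact (hgood.ulight v hv v hvT).1 rfl
    · refine hgood.step hv hU'sub (fun w hw => (mem_lightNb.1 (mem_sdiff.1 hw).1).2) ?_ ?_
      · intro w hw hadj
        exact (mem_sdiff.1 hw).2 (mem_union_left _ (mem_filter.2 ⟨mem_univ _, hadj⟩))
      · intro w hw x hx b hb hadj
        refine (mem_sdiff.1 hw).2 (mem_union_right _ ?_)
        exact mem_biUnion.2 ⟨x, hx, mem_biUnion.2 ⟨b, hb, mem_filter.2 ⟨mem_univ _, hadj⟩⟩⟩

open Classical in
/-- the core statement for graphs with bounded degree -/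
lemma core {G : SimpleGraph V} (hG : ∀ a b, ¬IsK6Sub G a b) {δ D : ℝ} (hδ : 0 < δ)
    (hn : 0 < Fintype.card V) (hD : ∀ v, (G.degree v : ℝ) ≤ D)
    {A : Finset V} (hA : ∀ v ∈ A, δ ≤ G.degree v)
    (c1 : ∀ m ≤ 4, 10 * (Fintype.card V : ℝ) ≤
      δ * ((δ ^ 2 / (420 * Fintype.card V)) ^ m * A.card))
    (c2 : ∀ m ≤ 4, 127 * D ≤
      (δ ^ 2 / (420 * Fintype.card V)) ^ (m + 1) * A.card) : False := by
  obtain ⟨T, U, hT, hUA, hgood, hU⟩ := iter hG hδ.le hn hD hA c1 c2 5 le_rfl
  have hn0 : (0 : ℝ) < Fintype.card V := by exact_mod_cast hn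
  have hpos : 0 < (U.card : ℝ) := by
    refine lt_of_lt_of_le ?_ hU
    have h1 := c1 0 (by omega)
    have hA0 : (0 : ℝ) < A.card := by
      by_contra hcon
      have : (A.card : ℝ) = 0 := le_antisymm (not_lt.1 hcon) (Nat.cast_nonneg _)
      rw [this] at h1
      simp at h1
      linarith
    positivity
  obtain ⟨v, hv⟩ := card_pos.1 (show 0 < U.card by exact_mod_cast hpos)
  have h6 := hgood.step hv (U' := ∅) (by simp) (by simp) (by simp) (by simp)
  obtain ⟨a, b, hab⟩ := h6.exists_K6 (by
    rw [card_insert_of_notMem, hT]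
    intro hvT
    exact (hgood.ulight v hv v hvT).1 rfl)
  exact hG a b hab

end Pool.Agent.H52LP
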