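import Pool.Agent.H52LP.K6

/-!
# Light pairs in a graph without a 1-subdivision of `K₆`
-/

namespace Pool.Agent.H52LP

open Finset

variable {V : Type*} [Fintype V]

open Classical in
/-- common neighbours -/
noncomputable def cn (G : SimpleGraph V) (u v : V) : Finset V :=
  univ.filter fun b => G.Adj u b ∧ G.Adj v b

lemma mem_cn {G : SimpleGraph V} {u v b : V} : b ∈ cn G u v ↔ G.Adj u b ∧ G.Adj v b := by
  simp [cn]

lemma cn_comm (G : SimpleGraph V) (u v : V) : cn G u v = cn G v u := by
  ext b
  simp [mem_cn, and_comm]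

/-- pairs with at least 21 common neighbours -/
def heavyGraph (G : SimpleGraph V) : SimpleGraph V where
  Adj u v := u ≠ v ∧ 21 ≤ (cn G u v).card
  symm := ⟨fun u v h => ⟨h.1.symm, by rw [cn_comm]; exact h.2⟩⟩
  loopless := ⟨fun u h => h.1 rfl⟩

/-- increasing pairs of indices -/
abbrev Pairs : Type := {p : Fin 6 × Fin 6 // p.1 < p.2}

/-- assembling a 1-subdivision of `K₆` -/
lemma exists_IsK6Sub {G : SimpleGraph V} (a : Fin 6 → V) (ha : Function.Injective a)
    (c : Pairs → V) (hc : Function.Injective c)
    (hcn : ∀ p : Pairs, c p ∈ cn G (a p.1.1) (a p.1.2)) (hne : ∀ p k, c p ≠ a k) :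
    ∃ b, IsK6Sub G a b := by
  classical
  refine ⟨fun i j => if h : i < j then c ⟨(i, j), h⟩ else
    if h : j < i then c ⟨(j, i), h⟩ else a 0, ha, ?_, ?_, ?_, ?_⟩
  · intro i j hij
    rcases lt_or_gt_of_ne hij with h | h
    · simp only [h, dif_pos]
      exact (mem_cn.1 (hcn ⟨(i, j), h⟩)).1
    · simp only [h, dif_pos, dif_neg (not_lt.2 h.le)]
      exact (mem_cn.1 (hcn ⟨(j, i), h⟩)).2
  · intro i j
    rcases lt_trichotomy i j with h | h | h
    · simp only [h, dif_pos, dif_neg (not_lt.2 h.le)]
    · simp [h]
    · simp only [h, dif_pos, dif_neg (not_lt.2 h.le)]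
  · intro i j k hij
    rcases lt_or_gt_of_ne hij with h | h
    · simp only [h, dif_pos]
      exact hne _ _
    · simp only [h, dif_pos, dif_neg (not_lt.2 h.le)]
      exact hne _ _
  · intro i j k l hij hkl
    rcases lt_or_gt_of_ne hij with h | h <;> rcases lt_or_gt_of_ne hkl with h' | h'
    · simp only [h, h', dif_pos]
      intro he
      have := congrArg Subtype.val (hc he)
      simp only [Prod.mk.injEq] at this
      exact Or.inl this
    · simp only [h, h', dif_pos, dif_neg (not_lt.2 h'.le)]
      intro he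
      have := congrArg Subtype.val (hc he)
      simp only [Prod.mk.injEq] at this
      exact Or.inr this
    · simp only [h, h', dif_pos, dif_neg (not_lt.2 h.le)]
      intro he
      have := congrArg Subtype.val (hc he)
      simp only [Prod.mk.injEq] at this
      exact Or.inr ⟨this.2, this.1⟩
    · simp only [h, h', dif_pos, dif_neg (not_lt.2 h.le), dif_neg (not_lt.2 h'.le)]
      intro he
      have := congrArg Subtype.val (hc he)
      simp only [Prod.mk.injEq] at this
      exact Or.inl ⟨this.2, this.1⟩

/-- the graph of heavy pairs contains no `K₆` -/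
lemma heavy_cliqueFree {G : SimpleGraph V} (hG : ∀ a b, ¬IsK6Sub G a b) :
    (heavyGraph G).CliqueFree 6 := by
  classical
  by_contra hcon
  rw [SimpleGraph.not_cliqueFree_iff_top_isContained] at hcon
  obtain ⟨f⟩ := hcon
  have ha : Function.Injective f := f.injective
  have hadj : ∀ p : Pairs, 21 ≤ (cn G (f p.1.1) (f p.1.2)).card := by
    intro p
    have : (heavyGraph G).Adj (f p.1.1) (f p.1.2) :=
      f.toHom.map_adj (by simpa using p.2.ne)
    exact this.2
  have himg : (univ.image f).card ≤ 6 := card_image_le.trans (by simp)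
  let t : Pairs → Finset V := fun p => cn G (f p.1.1) (f p.1.2) \ univ.image f
  have ht : ∀ p, 15 ≤ (t p).card := by
    intro p
    have := le_card_sdiff (univ.image f) (cn G (f p.1.1) (f p.1.2))
    have := hadj p
    simp only [t]
    omega
  have hcard : Fintype.card Pairs = 15 := by decide
  obtain ⟨c, hc, hct⟩ := (Finset.all_card_le_biUnion_card_iff_exists_injective t).1 (by
    intro s
    rcases s.eq_empty_or_nonempty with rfl | ⟨p, hp⟩
    · simp
    · calc s.card ≤ 15 := by rw [← hcard]; exact card_le_univ s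
        _ ≤ (t p).card := ht p
        _ ≤ (s.biUnion t).card := card_le_card (subset_biUnion_of_mem t hp))
  obtain ⟨b, hb⟩ := exists_IsK6Sub (G := G) f ha c hc (fun p => (mem_sdiff.1 (hct p)).1)
    (fun p k he => (mem_sdiff.1 (hct p)).2 (he ▸ mem_image_of_mem _ (mem_univ k)))
  exact hG _ _ hb

open Classical in
omit [Fintype V] in
/-- number of heavy pairs inside a set -/
lemma heavy_pairs {H : SimpleGraph V} (hH : H.CliqueFree 6) (S : Finset V) :
    10 * ((S ×ˢ S).filter fun p => H.Adj p.1 p.2).card ≤ 8 * S.card ^ 2 := by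
  let H' : SimpleGraph S := H.comap (Subtype.val)
  have hfree : H'.CliqueFree (5 + 1) :=
    SimpleGraph.CliqueFree.comap
      ⟨(SimpleGraph.Embedding.comap (Function.Embedding.subtype _) H).toCopy⟩ hH
  obtain ⟨K, _, maxK⟩ := SimpleGraph.exists_isTuranMaximal (V := S) (r := 5) (by omega)
  have h1 : H'.edgeFinset.card ≤ K.edgeFinset.card := by
    have := maxK.2 hfree
    simpa using this
  have h2 : K.edgeFinset.card = (SimpleGraph.turanGraph (Fintype.card S) 5).edgeFinset.card := by
    have := ((SimpleGraph.isTuranMaximal_iff_nonempty_iso_turanGraph (by omega)).mp maxK).some.card_edgeFinset_eq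
    simpa using this
  have h3 := SimpleGraph.mul_card_edgeFinset_turanGraph_le (n := Fintype.card S) (r := 5)
  have h4 : ∑ x : S, H'.degree x = 2 * H'.edgeFinset.card := H'.sum_degrees_eq_twice_card_edges
  have h5 : ((S ×ˢ S).filter fun p => H.Adj p.1 p.2).card = ∑ x : S, H'.degree x := by
    rw [card_filter, sum_product, ← sum_coe_sort S]
    refine sum_congr rfl fun x _ => ?_
    rw [← sum_coe_sort S, ← SimpleGraph.card_neighborFinset_eq_degree, SimpleGraph.neighborFinset_eq_filter, card_filter]
    rfl
  rw [Fintype.card_coe] at h3 h2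
  rw [h5, h4]
  have : H'.edgeFinset.card ≤ (SimpleGraph.turanGraph S.card 5).edgeFinset.card := h1.trans h2.le
  omega

end Pool.Agent.H52LP
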