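import Pool.Agent.H52LP.Light

/-!
# A graph on `n` vertices with at least `C n^{19/13}` edges contains a 1-subdivision of `K₆`
-/

namespace Pool.Agent.H52LP

open Finset

variable {V : Type*} [Fintype V]

open Classical in
/-- neighbours of `b` inside `U` -/
noncomputable def nb (G : SimpleGraph V) (U : Finset V) (b : V) : Finset V :=
  U.filter fun u => G.Adj u b

omit [Fintype V] in
lemma mem_nb {G : SimpleGraph V} {U : Finset V} {b u : V} : u ∈ nb G U b ↔ u ∈ U ∧ G.Adj u b := by
  simp [nb]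

open Classical in
/-- ordered light pairs inside `U` -/
noncomputable def LP (G : SimpleGraph V) (U : Finset V) : Finset (V × V) :=
  (U ×ˢ U).filter fun p => p.1 ≠ p.2 ∧ (cn G p.1 p.2).card < 21 ∧ (cn G p.1 p.2).Nonempty

lemma mem_LP {G : SimpleGraph V} {U : Finset V} {p : V × V} :
    p ∈ LP G U ↔ (p.1 ∈ U ∧ p.2 ∈ U) ∧ p.1 ≠ p.2 ∧ (cn G p.1 p.2).card < 21 ∧
      (cn G p.1 p.2).Nonempty := by
  simp [LP, mem_product]

lemma sum_le_LP {G : SimpleGraph V} (hG : ∀ a b, ¬IsK6Sub G a b) (B U : Finset V) :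
    ∑ b ∈ B, (((nb G U b).card : ℝ) ^ 2 / 5 - (nb G U b).card) ≤ 21 * ((LP G U).card : ℝ) := by
  classical
  have h1 : ∀ b ∈ B, (((nb G U b).card : ℝ) ^ 2 / 5 - (nb G U b).card) ≤
      (((LP G U).filter fun p => b ∈ cn G p.1 p.2).card : ℝ) := by
    intro b _
    set S := nb G U b with hS
    have hh := heavy_pairs (heavy_cliqueFree hG) S
    have hsub : (S ×ˢ S) ⊆ ((S ×ˢ S).filter fun p => (heavyGraph G).Adj p.1 p.2) ∪
        (S.image fun x => (x, x)) ∪ ((LP G U).filter fun p => b ∈ cn G p.1 p.2) := by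
      rintro ⟨x, y⟩ hxy
      rw [mem_product] at hxy
      simp only [mem_union, mem_filter, mem_product, mem_image, mem_LP]
      by_cases hxy' : x = y
      · subst hxy'
        exact Or.inl (Or.inr ⟨x, hxy.1, rfl⟩)
      by_cases hv : (heavyGraph G).Adj x y
      · exact Or.inl (Or.inl ⟨hxy, hv⟩)
      right
      have hx := mem_nb.1 hxy.1
      have hy := mem_nb.1 hxy.2
      have hb : b ∈ cn G x y := mem_cn.2 ⟨hx.2, hy.2⟩
      refine ⟨⟨⟨hx.1, hy.1⟩, hxy', ?_, ⟨b, hb⟩⟩, hb⟩
      by_contra hlt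
      exact hv ⟨hxy', not_lt.1 hlt⟩
    have hc := card_le_card hsub
    have hc2 := (hc.trans (card_union_le _ _)).trans
      (Nat.add_le_add_right (card_union_le _ _) _)
    have hc3 : (S.image fun x => (x, x)).card ≤ S.card := card_image_le
    rw [card_product] at hc2
    have e1 : (10 * (((S ×ˢ S).filter fun p => (heavyGraph G).Adj p.1 p.2).card : ℝ)) ≤
        8 * (S.card : ℝ) ^ 2 := by exact_mod_cast hh
    have e2 : (S.card : ℝ) * S.card ≤ (((S ×ˢ S).filter fun p => (heavyGraph G).Adj p.1 p.2).card : ℝ)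
        + ((S.image fun x => (x, x)).card : ℝ)
        + (((LP G U).filter fun p => b ∈ cn G p.1 p.2).card : ℝ) := by exact_mod_cast hc2
    have e3 : ((S.image fun x => (x, x)).card : ℝ) ≤ S.card := by exact_mod_cast hc3
    nlinarith
  have h2 : ∑ b ∈ B, (((LP G U).filter fun p => b ∈ cn G p.1 p.2).card : ℝ) ≤
      21 * ((LP G U).card : ℝ) := by
    have h3 : ∑ b ∈ B, ((LP G U).filter fun p => b ∈ cn G p.1 p.2).card ≤
        ∑ b, ((LP G U).filter fun p => b ∈ cn G p.1 p.2).card :=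
      sum_le_sum_of_subset (subset_univ B)
    have h4 : ∑ b, ((LP G U).filter fun p => b ∈ cn G p.1 p.2).card =
        ∑ p ∈ LP G U, (cn G p.1 p.2).card := by
      simp only [card_filter]
      rw [sum_comm]
      refine sum_congr rfl fun p _ => ?_
      simp
    have h5 : ∑ p ∈ LP G U, (cn G p.1 p.2).card ≤ (LP G U).card * 21 := by
      refine sum_le_card_nsmul _ _ _ fun p hp => ?_
      exact (mem_LP.1 hp).2.2.1.le
    have h6 := h3.trans (h4.le.trans h5)
    have : ((∑ b ∈ B, ((LP G U).filter fun p => b ∈ cn G p.1 p.2).card : ℕ) : ℝ) ≤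
        (((LP G U).card * 21 : ℕ) : ℝ) := by exact_mod_cast h6
    push_cast at this
    linarith
  exact (sum_le_sum h1).trans h2

open Classical in
/-- light neighbours of `v` in `U` -/
noncomputable def lightNb (G : SimpleGraph V) (U : Finset V) (v : V) : Finset V :=
  U.filter fun w => v ≠ w ∧ (cn G v w).card < 21 ∧ (cn G v w).Nonempty

lemma mem_lightNb {G : SimpleGraph V} {U : Finset V} {v w : V} : w ∈ lightNb G U v ↔
    w ∈ U ∧ v ≠ w ∧ (cn G v w).card < 21 ∧ (cn G v w).Nonempty := by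
  simp [lightNb]

open Classical in
lemma sum_nb (G : SimpleGraph V) (U : Finset V) :
    ∑ b, (nb G U b).card = ∑ u ∈ U, G.degree u := by
  simp only [nb, card_filter]
  rw [sum_comm]
  refine sum_congr rfl fun u _ => ?_
  rw [← SimpleGraph.card_neighborFinset_eq_degree, SimpleGraph.neighborFinset_eq_filter,
    card_filter]

open Classical in
/-- some vertex has many light neighbours -/
lemma exists_light {G : SimpleGraph V} (hG : ∀ a b, ¬IsK6Sub G a b) {δ : ℝ} (hδ : 0 ≤ δ)
    {U : Finset V} (hU : ∀ v ∈ U, δ ≤ G.degree v) (hn : 0 < Fintype.card V)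
    (h10 : 10 * (Fintype.card V : ℝ) ≤ δ * U.card) :
    ∃ v ∈ U, δ ^ 2 / (210 * Fintype.card V) * U.card ≤ ((lightNb G U v).card : ℝ) := by
  set n : ℝ := (Fintype.card V : ℝ) with hn'
  have hn0 : 0 < n := by
    rw [hn']
    exact_mod_cast hn
  set T : ℝ := ∑ b, ((nb G U b).card : ℝ) with hT
  set Q : ℝ := ∑ b, ((nb G U b).card : ℝ) ^ 2 with hQ
  have hTδ : δ * U.card ≤ T := by
    have h1 : T = ∑ u ∈ U, (G.degree u : ℝ) := by
      rw [hT]
      exact_mod_cast sum_nb G U
    rw [h1]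
    have := card_nsmul_le_sum U (fun u => (G.degree u : ℝ)) δ hU
    rw [nsmul_eq_mul] at this
    linarith
  have hTQ : T ^ 2 ≤ n * Q := by
    have := sq_sum_le_card_mul_sum_sq (s := (univ : Finset V)) (f := fun b => ((nb G U b).card : ℝ))
    simpa [hT, hQ, hn', card_univ] using this
  have hT10 : 10 * n ≤ T := h10.trans hTδ
  have hQT : 10 * T ≤ Q := by
    have h1 : 10 * n * T ≤ T ^ 2 := by nlinarith
    have h2 : n * (10 * T) ≤ n * Q := by nlinarith
    exact le_of_mul_le_mul_left h2 hn0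
  have hLP := sum_le_LP hG univ U
  rw [sum_sub_distrib, ← sum_div] at hLP
  change Q / 5 - T ≤ _ at hLP
  have hLP2 : Q ≤ 210 * ((LP G U).card : ℝ) := by linarith
  have hLP3 : (δ * U.card) ^ 2 ≤ n * (210 * ((LP G U).card : ℝ)) := by
    have h0 : 0 ≤ δ * U.card := mul_nonneg hδ (Nat.cast_nonneg _)
    have h1 : (δ * U.card) ^ 2 ≤ T ^ 2 := pow_le_pow_left₀ h0 hTδ 2
    exact (h1.trans hTQ).trans (mul_le_mul_of_nonneg_left hLP2 hn0.le)
  have hsum : ((LP G U).card : ℝ) = ∑ v ∈ U, ((lightNb G U v).card : ℝ) := by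
    have : (LP G U).card = ∑ v ∈ U, (lightNb G U v).card := by
      simp only [LP, lightNb, card_filter, sum_product]
    exact_mod_cast this
  have hUne : U.Nonempty := by
    rw [nonempty_iff_ne_empty]
    rintro rfl
    simp at h10
    linarith
  have hUpos : (0 : ℝ) < U.card := by exact_mod_cast hUne.card_pos
  by_contra hcon
  push Not at hcon
  have h1 := sum_lt_sum_of_nonempty hUne hcon
  rw [← hsum, sum_const, nsmul_eq_mul] at h1
  have h2 : n * (210 * ((LP G U).card : ℝ)) < (δ * U.card) ^ 2 := by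
    have h3 : n * 210 * ((LP G U).card : ℝ) < n * 210 * (U.card * (δ ^ 2 / (210 * n) * U.card)) :=
      mul_lt_mul_of_pos_left h1 (by positivity)
    have h4 : n * 210 * (U.card * (δ ^ 2 / (210 * n) * U.card)) = (δ * U.card) ^ 2 := by
      field_simp
    rw [h4] at h3
    linarith
  exact absurd hLP3 (not_le.2 h2)

open Classical in
/-- `T` is a set of pairwise light, pairwise nonadjacent vertices without a common neighbour of
three of them, and every vertex of `U` can be added to `T` -/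
structure Good (G : SimpleGraph V) (T U : Finset V) : Prop where
  light : ∀ x ∈ T, ∀ y ∈ T, x ≠ y → (cn G x y).Nonempty
  nadj : ∀ x ∈ T, ∀ y ∈ T, ¬G.Adj x y
  three : ∀ x ∈ T, ∀ y ∈ T, ∀ z ∈ T, x ≠ y → x ≠ z → y ≠ z →
    ∀ b, ¬(G.Adj x b ∧ G.Adj y b ∧ G.Adj z b)
  ulight : ∀ w ∈ U, ∀ x ∈ T, x ≠ w ∧ (cn G x w).card < 21 ∧ (cn G x w).Nonempty
  unadj : ∀ w ∈ U, ∀ x ∈ T, ¬G.Adj x w
  uthree : ∀ w ∈ U, ∀ x ∈ T, ∀ y ∈ T, x ≠ y → ∀ b, ¬(G.Adj x b ∧ G.Adj y b ∧ G.Adj w b)

/-- one step: add `v ∈ U` to `T` and shrink `U` -/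
lemma Good.step {G : SimpleGraph V} {T U U' : Finset V} (h : Good G T U) {v : V} (hv : v ∈ U)
    (hU' : U' ⊆ U) (h1 : ∀ w ∈ U', v ≠ w ∧ (cn G v w).card < 21 ∧ (cn G v w).Nonempty)
    (h2 : ∀ w ∈ U', ¬G.Adj v w) (h3 : ∀ w ∈ U', ∀ x ∈ T, ∀ b, b ∈ cn G x v → ¬G.Adj w b)
    [DecidableEq V] : Good G (insert v T) U' := by
  refine ⟨?_, ?_, ?_, ?_, ?_, ?_⟩
  · intro x hx y hy hxy
    rw [mem_insert] at hx hy
    rcases hx with rfl | hx <;> rcases hy with rfl | hy
    · exact absurd rfl hxy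
    · rw [cn_comm]
      exact (h.ulight _ hv _ hy).2.2
    · exact (h.ulight _ hv _ hx).2.2
    · exact h.light _ hx _ hy hxy
  · intro x hx y hy
    rw [mem_insert] at hx hy
    rcases hx with rfl | hx <;> rcases hy with rfl | hy
    · exact G.loopless.irrefl _
    · exact fun h' => h.unadj _ hv _ hy h'.symm
    · exact h.unadj _ hv _ hx
    · exact h.nadj _ hx _ hy
  · intro x hx y hy z hz hxy hxz hyz b hb
    rw [mem_insert] at hx hy hz
    rcases hx with rfl | hx
    · rcases hy with rfl | hy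
      · exact hxy rfl
      rcases hz with rfl | hz
      · exact hxz rfl
      exact h.uthree _ hv _ hy _ hz hyz b ⟨hb.2.1, hb.2.2, hb.1⟩
    · rcases hy with rfl | hy
      · rcases hz with rfl | hz
        · exact hyz rfl
        exact h.uthree _ hv _ hx _ hz hxz b ⟨hb.1, hb.2.2, hb.2.1⟩
      · rcases hz with rfl | hz
        · exact h.uthree _ hv _ hx _ hy hxy b hb
        · exact h.three _ hx _ hy _ hz hxy hxz hyz b hb
  · intro w hw x hx
    rw [mem_insert] at hx
    rcases hx with rfl | hx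
    · exact h1 w hw
    · exact h.ulight _ (hU' hw) _ hx
  · intro w hw x hx
    rw [mem_insert] at hx
    rcases hx with rfl | hx
    · exact h2 w hw
    · exact h.unadj _ (hU' hw) _ hx
  · intro w hw x hx y hy hxy b hb
    rw [mem_insert] at hx hy
    rcases hx with rfl | hx <;> rcases hy with rfl | hy
    · exact hxy rfl
    · exact h3 w hw _ hy b (mem_cn.2 ⟨hb.2.1, hb.1⟩) hb.2.2
    · exact h3 w hw _ hx b (mem_cn.2 ⟨hb.1, hb.2.1⟩) hb.2.2
    · exact h.uthree _ (hU' hw) _ hx _ hy hxy b hb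

/-- a good set of six vertices gives a 1-subdivision of `K₆` -/
lemma Good.exists_K6 {G : SimpleGraph V} {T : Finset V} (h : Good G T ∅) (hT : T.card = 6) :
    ∃ a b, IsK6Sub G a b := by
  classical
  let e : Fin 6 ≃ T := (T.equivFinOfCardEq hT).symm
  let a : Fin 6 → V := fun i => (e i : V)
  have ha : Function.Injective a := Subtype.val_injective.comp e.injective
  have haT : ∀ i, a i ∈ T := fun i => (e i).2
  have hex : ∀ p : Pairs, ∃ b, b ∈ cn G (a p.1.1) (a p.1.2) := fun p =>
    h.light _ (haT _) _ (haT _) (ha.ne p.2.ne)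
  choose c hc using hex
  obtain ⟨b, hb⟩ := exists_IsK6Sub (G := G) a ha c (by
    intro p q hpq
    by_contra hne
    have hp := mem_cn.1 (hc p)
    have hq := mem_cn.1 (hc q)
    rw [← hpq] at hq
    -- three distinct indices
    have h3 : ∃ k : Fin 6, (k = q.1.1 ∨ k = q.1.2) ∧ k ≠ p.1.1 ∧ k ≠ p.1.2 := by
      by_contra hcon
      push Not at hcon
      have k1 := hcon q.1.1 (Or.inl rfl)
      have k2 := hcon q.1.2 (Or.inr rfl)
      have hplt := p.2
      have hqlt := q.2
      apply hne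
      apply Subtype.ext
      apply Prod.ext
      · by_contra h11
        have h12 := k1 (Ne.symm h11)
        by_cases h21 : q.1.2 = p.1.1
        · rw [h12, h21] at hqlt
          exact absurd hplt (not_lt.2 hqlt.le)
        · have h22 := k2 h21
          rw [h12, h22] at hqlt
          exact absurd hqlt (lt_irrefl _)
      · by_contra h22
        by_cases h21 : q.1.2 = p.1.1
        · by_cases h11 : q.1.1 = p.1.1
          · rw [h21, h11] at hqlt
            exact absurd hqlt (lt_irrefl _)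
          · have h12 := k1 h11
            rw [h12, h21] at hqlt
            exact absurd hplt (not_lt.2 hqlt.le)
        · exact h22 (k2 h21).symm
    obtain ⟨k, hk, hk1, hk2⟩ := h3
    have hkadj : G.Adj (a k) (c p) := by
      rcases hk with rfl | rfl
      · exact hq.1
      · exact hq.2
    exact h.three _ (haT p.1.1) _ (haT p.1.2) _ (haT k) (ha.ne p.2.ne) (ha.ne hk1.symm)
      (ha.ne hk2.symm) _ ⟨hp.1, hp.2, hkadj⟩) hc (by
    intro p k hk
    have hp := mem_cn.1 (hc p)
    rw [hk] at hp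
    exact h.nadj _ (haT _) _ (haT _) hp.1)
  exact ⟨a, b, hb⟩

end Pool.Agent.H52LP
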